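import Pool.Agent.helper84.BoseMain

open MeasureTheory Set Filter Topology
open Pool.Agent.helper84.Bose

namespace Pool.Agent.Results.MP_b790f8_mp.CriticalClusterGas

/-- Negative answer to Q1: for every `μ > 0` there is a real-valued pair potential `v` of finite
range, with scattering length `a > 0` and `H_N ≥ 0` on `L²(ℝ^{3N})` for all `N`, such that for all
small densities the ground state energy per particle (Dirichlet or Neumann) is at most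
`0.9 · 4πμρa`; in particular `e₀(ρ)/(4πμρa)` does not tend to `1` as `ρ → 0`. -/
theorem result : ∀ μ : ℝ, 0 < μ → ∃ (v : ℝ → ℝ) (a : ℝ),
    Measurable v ∧ (∃ B : ℝ, ∀ r, B ≤ v r) ∧ (∃ R : ℝ, ∀ r, R ≤ r → v r = 0) ∧
    (∃ S : Finset ℝ, ContinuousOn v (S : Set ℝ)ᶜ) ∧ (∃ r, 0 < r ∧ v r < 0) ∧
    0 < a ∧ (∀ a', IsScatteringLength μ v a' ↔ a' = a) ∧
    (∀ N, NoBoundStates μ v N) ∧
    ∀ E : ℕ → ℝ → EReal, E = dirichletEnergy μ v ∨ E = neumannEnergy μ v →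
      (∃ ρ₀ : ℝ, 0 < ρ₀ ∧ ∀ ρ : ℝ, 0 < ρ → ρ < ρ₀ → ∀ᶠ L : ℝ in atTop,
        E ⌊ρ * L ^ 3⌋₊ L ≤
          ((9 / 10 * (4 * Real.pi * μ * ρ * a) * (ρ * L ^ 3) : ℝ) : EReal)) ∧
      ¬ Tendsto (fun ρ : ℝ => energyPerParticle E ρ / ((4 * Real.pi * μ * ρ * a : ℝ) : EReal))
        (𝓝[>] 0) (𝓝 1) :=
  main

end Pool.Agent.Results.MP_b790f8_mp.CriticalClusterGas
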